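import Pool.Agent.U152.RK.Aut
import Pool.Agent.U152.MU.Det

/-!
# Number fields: fields with a real place and CM fields
-/

set_option autoImplicit false

namespace Pool.Agent.U152.RK

open Module IntermediateField Pool.Agent.U10.Shr Pool.Agent.Q60.MU Pool.Agent.W5h77.MB
open Pool.Agent.U152.MU
open Pool.Agent.X310.Mu (comms)
open scoped ComplexConjugate

/-- `F` has a real place. -/
def RealPl (F : IntermediateField ℚ Qb) : Prop :=
  ∃ φ : Qb →+* ℂ, ∀ x ∈ F, conj (φ x) = φ x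

/-- `F` is a CM field. -/
def CM (F : IntermediateField ℚ Qb) : Prop :=
  ¬ RealPl F ∧ ∀ x ∈ F, ∃ y ∈ F, ∀ φ : Qb →+* ℂ, φ y = conj (φ x)

/-- Subfields of CM fields. -/
theorem cm_sub {E F : IntermediateField ℚ Qb} (hE : CM E) (hFE : F ≤ E) : RealPl F ∨ CM F := by
  by_cases h : RealPl F
  · exact Or.inl h
  refine Or.inr ⟨h, fun x hx => ?_⟩
  obtain ⟨y, hy, hy1⟩ := hE.2 x (hFE hx)
  refine ⟨y, ?_, hy1⟩
  have h1 : y ∈ fixedField F.fixingSubgroup := by
    rw [mem_fixedField_iff]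
    intro g hg
    obtain ⟨ι⟩ := exists_iota
    apply ι.injective
    have h2 := hy1 (ι.comp (g : Qb ≃+* Qb).toRingHom)
    change ι (g y) = conj (ι (g x)) at h2
    rw [h2, (IntermediateField.mem_fixingSubgroup_iff _ _).1 hg x hx, hy1 ι]
  rwa [InfiniteGalois.fixedField_fixingSubgroup] at h1

theorem cm_of_comms {W : Subgroup Gal(Qb/ℚ)} (hWo : IsOpen (W : Set Gal(Qb/ℚ))) {ι : Qb →+* ℂ}
    {c : Gal(Qb/ℚ)} (hc : ∀ x, ι (c x) = conj (ι x)) (hcW : c ∉ W) (hW : comms c ≤ W) :
    CM (fixedField W) := by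
  have hfix : (fixedField W).fixingSubgroup = W := fix_fixed hWo
  have hn : (comms c).Normal := Pool.Agent.X310.Mu.comms_normal c
  have hmem : ∀ g : Gal(Qb/ℚ), g * c * g⁻¹ * c⁻¹ ∈ comms c := fun g =>
    Subgroup.subset_closure ⟨g, rfl⟩
  -- every embedding
  have key : ∀ φ : Qb →+* ℂ, ∀ x ∈ fixedField W, φ (c x) = conj (φ x) := by
    intro φ x hx
    obtain ⟨g, hg⟩ := exists_emb ι φ
    rw [mem_fixedField_iff] at hx
    have h1 : c x = (g⁻¹ * c * g) x := by
      have h2 := hn.conj_mem _ (hmem g⁻¹) c⁻¹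
      rw [inv_inv, inv_inv] at h2
      have h3 := hx _ (hW h2)
      have h4 : g⁻¹ * c * g = c * (c⁻¹ * (g⁻¹ * c * g * c⁻¹) * c) := by group
      rw [h4, AlgEquiv.mul_apply, h3]
    rw [h1, ← hg, ← hg, ← hc]
    congr 1
    rw [← AlgEquiv.mul_apply, ← AlgEquiv.mul_apply]
    congr 1
    group
  refine ⟨?_, fun x hx => ⟨c x, ?_, fun φ => key φ x hx⟩⟩
  · rintro ⟨φ, hφ⟩
    apply hcW
    rw [← hfix, IntermediateField.mem_fixingSubgroup_iff]
    intro x hx
    apply φ.injective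
    rw [key φ x hx, hφ x hx]
  · rw [mem_fixedField_iff] at hx ⊢
    intro s hs
    have h1 : c⁻¹ * s * c ∈ W := by
      have h2 := hn.conj_mem _ ((comms c).inv_mem (hmem s⁻¹)) c⁻¹
      have h3 : c⁻¹ * s * c = s * (c⁻¹ * (s⁻¹ * c * s⁻¹⁻¹ * c⁻¹)⁻¹ * c⁻¹⁻¹) := by group
      rw [h3]
      exact W.mul_mem hs (hW h2)
    have h2 := hx _ h1
    have h3 : s (c x) = c ((c⁻¹ * s * c) x) := by
      rw [← AlgEquiv.mul_apply, ← AlgEquiv.mul_apply]
      congr 1
      group
    rw [h3, h2]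

section step

variable {R : Type*} [CommRing R] [IsDomain R] [CharZero R] {M : Type*} [AddCommGroup M]
  [Module R M] {a : Gal(Qb/ℚ) →* Module.End R M} (L : LocData a)

/-- All the classes over `F` are torsion. -/
def ZF (F : IntermediateField ℚ Qb) : Prop := Zr L F.fixingSubgroup

theorem zf_mono {E F : IntermediateField ℚ Qb} [FiniteDimensional ℚ F] (h : E ≤ F) (hF : ZF L F) :
    ZF L E := by
  obtain ⟨N, hN, hNf, hNo, hNF⟩ := exists_normal F
  exact zr_mono L hNF (fixingSubgroup_antitone h) hNo hF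

theorem mem_fix_map {F : IntermediateField ℚ Qb} (c m : Gal(Qb/ℚ)) :
    m ∈ (F.map c.toAlgHom).fixingSubgroup ↔ c⁻¹ * m * c ∈ F.fixingSubgroup := by
  rw [IntermediateField.mem_fixingSubgroup_iff, IntermediateField.mem_fixingSubgroup_iff]
  constructor
  · intro h x hx
    have h1 := h (c x) ⟨x, hx, rfl⟩
    rw [AlgEquiv.mul_apply, AlgEquiv.mul_apply, h1, ← AlgEquiv.mul_apply, inv_mul_cancel,
      AlgEquiv.one_apply]
  · rintro h _ ⟨x, hx, rfl⟩
    have h1 := h x hx
    change m (c x) = c x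
    rw [AlgEquiv.mul_apply, AlgEquiv.mul_apply] at h1
    have h2 := congrArg c h1
    rwa [← AlgEquiv.mul_apply, mul_inv_cancel, AlgEquiv.one_apply] at h2

theorem fix_F {F : IntermediateField ℚ Qb} [FiniteDimensional ℚ F] {ι : Qb →+* ℂ} {c : Gal(Qb/ℚ)}
    (hc : ∀ x, ι (c x) = conj (ι x)) :
    ((F ⊔ F.map c.toAlgHom) ⊓ realSub ι).fixingSubgroup =
      (F.fixingSubgroup ⊓ (F.map c.toAlgHom).fixingSubgroup) ⊔ Subgroup.zpowers c := by
  rw [fix_real hc, fixingSubgroup_sup]

/-- **One field.** -/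
theorem rat_step (F : IntermediateField ℚ Qb) [FiniteDimensional ℚ F]
    (hr : ∀ (ι : Qb →+* ℂ) (c : Gal(Qb/ℚ)), (∀ x, ι (c x) = conj (ι x)) →
      ZF L ((F ⊔ F.map c.toAlgHom) ⊓ realSub ι))
    (hcm : ∀ E ≤ F, CM E → ZF L E) : ZF L F := by
  obtain ⟨N, hN, hNf, hNo, hNF⟩ := exists_normal F
  obtain ⟨ι⟩ := exists_iota
  obtain ⟨c, hc, hcc⟩ := exists_conj ι
  refine zr_step L hNF hNo hcc (fun g => ?_) ?_
  · have hc' : ∀ x, (ι.comp (g⁻¹ : Qb ≃+* Qb).toRingHom) ((g * c * g⁻¹) x) =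
        conj ((ι.comp (g⁻¹ : Qb ≃+* Qb).toRingHom) x) := by
      intro x
      change ι (g⁻¹ ((g * c * g⁻¹) x)) = conj (ι (g⁻¹ x))
      rw [← hc, ← AlgEquiv.mul_apply, ← AlgEquiv.mul_apply]
      congr 2
      group
    refine ⟨(F.map (g * c * g⁻¹).toAlgHom).fixingSubgroup, fun m hm => (mem_fix_map _ _).1 hm,
      fun m hm => (mem_fix_map _ _).2 (hNF ?_), ?_⟩
    · have h1 := hN.conj_mem m hm (g * c * g⁻¹)⁻¹
      rwa [inv_inv] at h1
    · rw [← fix_F hc']
      exact hr _ _ hc'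
  · have hWo : IsOpen ((F.fixingSubgroup ⊔ comms c : Subgroup Gal(Qb/ℚ)) : Set Gal(Qb/ℚ)) :=
      Subgroup.isOpen_mono le_sup_left F.fixingSubgroup_isOpen
    have hfix := fix_fixed hWo
    have hle : fixedField (F.fixingSubgroup ⊔ comms c) ≤ F := by
      conv_rhs => rw [← InfiniteGalois.fixedField_fixingSubgroup F]
      exact IntermediateField.fixedField_antitone le_sup_left
    have h1 : ZF L (fixedField (F.fixingSubgroup ⊔ comms c)) := by
      by_cases hcW : c ∈ F.fixingSubgroup ⊔ comms c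
      · refine zf_mono L (F := (F ⊔ F.map c.toAlgHom) ⊓ realSub ι) ?_ (hr ι c hc)
        refine le_inf (hle.trans le_sup_left) fun x hx => ?_
        rw [mem_realSub, ← hc]
        rw [mem_fixedField_iff] at hx
        rw [hx c hcW]
      · exact hcm _ hle (cm_of_comms hWo hc hcW le_sup_right)
    unfold ZF at h1
    rwa [hfix] at h1

/-- The degree. -/
theorem deg_le {F : IntermediateField ℚ Qb} [FiniteDimensional ℚ F] (hF : ¬ RealPl F)
    {ι : Qb →+* ℂ} {c : Gal(Qb/ℚ)} (hc : ∀ x, ι (c x) = conj (ι x)) :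
    2 * finrank ℚ ((F ⊔ F.map c.toAlgHom) ⊓ realSub ι : IntermediateField ℚ Qb) ≤
      finrank ℚ F * (finrank ℚ F - 1) := by
  rw [finrank_eq_fixingSubgroup_index, finrank_eq_fixingSubgroup_index, fix_F hc]
  have : F.fixingSubgroup.FiniteIndex := ⟨index_ne_zero' F⟩
  refine index_bound (fun h => hF ⟨ι, fun x hx => ?_⟩) (mem_fix_map c)
  rw [← hc, (IntermediateField.mem_fixingSubgroup_iff _ _).1 h x hx]

/-- **All the fields of bounded degree.** -/
theorem rat_deg {d : ℕ} (hd : 3 ≤ d)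
    (hr : ∀ E : IntermediateField ℚ Qb, FiniteDimensional ℚ E → RealPl E →
      2 * finrank ℚ E ≤ d * (d - 1) → ZF L E)
    (hcm : ∀ E : IntermediateField ℚ Qb, FiniteDimensional ℚ E → CM E → finrank ℚ E ≤ d → ZF L E)
    (F : IntermediateField ℚ Qb) [FiniteDimensional ℚ F] (hF : finrank ℚ F ≤ d) : ZF L F := by
  by_cases hreal : RealPl F
  · refine hr F inferInstance hreal ?_
    have h1 : d * 2 ≤ d * (d - 1) := Nat.mul_le_mul_left _ (by omega)
    omega
  · refine rat_step L F (fun ι c hc => ?_) fun E hE hcE => ?_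
    · refine hr _ inferInstance ⟨ι, fun x hx => mem_realSub.1 ((IntermediateField.mem_inf).1 hx).2⟩ ?_
      exact (deg_le hreal hc).trans (Nat.mul_le_mul hF (Nat.sub_le_sub_right hF 1))
    · have := fd_of_le hE
      have h1 : finrank ℚ E ≤ finrank ℚ F :=
        Nat.le_of_dvd finrank_pos (IntermediateField.finrank_dvd_of_le_right hE)
      exact hcm E inferInstance hcE (h1.trans hF)

/-- The subgroups of order `q r` of the group of automorphisms are cyclic. -/
def CycAut {k : Type} [Field k] {A : Type} [Field A] [Algebra k A] (F : IntermediateField k A) : Prop :=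
  ∀ (q r : ℕ) (B : Subgroup (F ≃ₐ[k] F)), q.Prime → r.Prime → Nat.card B = q * r → IsCyclic B

/-- A field of least degree. -/
theorem cyc_least {k : Type} [Field k] {A : Type} [Field A] [Algebra k A] [IsGalois k A]
    {a : (A ≃ₐ[k] A) →* Module.End R M} (L : LocData a)
    {F : IntermediateField k A} [FiniteDimensional k F] (hF : ¬ Zr L F.fixingSubgroup)
    (hsub : ∀ E < F, Zr L E.fixingSubgroup) : CycAut F := by
  intro q r B hq hr hB
  by_contra hcon
  exact hF (aut_step L B hq hr hB hcon hsub)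

/-- A minimal subfield. -/
theorem exists_min {k : Type} [Field k] {A : Type} [Field A] [Algebra k A] [IsGalois k A]
    (P : IntermediateField k A → Prop) {F : IntermediateField k A} [FiniteDimensional k F] (hF : ¬ P F) :
    ∃ E ≤ F, ¬ P E ∧ ∀ E' < E, P E' := by
  classical
  obtain ⟨n, hn⟩ : ∃ n, finrank k F = n := ⟨_, rfl⟩
  induction n using Nat.strong_induction_on generalizing F with
  | _ n ih =>
    by_cases h : ∀ E' < F, P E'
    · exact ⟨F, le_rfl, hF, h⟩
    · push Not at h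
      obtain ⟨E', h1, h2⟩ := h
      have := fd_of_le h1.le
      have h3 : finrank k E' < n := by
        rw [← hn]
        rcases lt_or_ge (finrank k E') (finrank k F) with h4 | h4
        · exact h4
        · exact absurd (IntermediateField.eq_of_le_of_finrank_le h1.le h4) h1.ne
      obtain ⟨E, h4, h5, h6⟩ := ih _ h3 h2 rfl
      exact ⟨E, h4.trans h1.le, h5, h6⟩

/-- **All number fields.** -/
theorem rat_all : (∀ F : IntermediateField ℚ Qb, FiniteDimensional ℚ F → ZF L F) ↔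
    ∀ F : IntermediateField ℚ Qb, FiniteDimensional ℚ F → (RealPl F ∨ CM F) → CycAut F → ZF L F := by
  refine ⟨fun h F hF _ _ => h F hF, fun h => ?_⟩
  have h1 : ∀ F : IntermediateField ℚ Qb, FiniteDimensional ℚ F → (RealPl F ∨ CM F) → ZF L F := by
    intro F hF h1
    by_contra hcon
    obtain ⟨E, h2, h3, h4⟩ := exists_min (ZF L) hcon
    have := fd_of_le h2
    refine h3 (h E inferInstance ?_ (cyc_least L h3 h4))
    rcases h1 with ⟨φ, h1⟩ | h1
    · exact Or.inl ⟨φ, fun x hx => h1 x (h2 hx)⟩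
    · exact cm_sub h1 h2
  intro F hF
  refine rat_step L F (fun ι c hc => ?_) fun E hE hcE => ?_
  · exact h1 _ inferInstance
      (Or.inl ⟨ι, fun x hx => mem_realSub.1 ((IntermediateField.mem_inf).1 hx).2⟩)
  · have := fd_of_le hE
    exact h1 E inferInstance (Or.inr hcE)

end step

end Pool.Agent.U152.RK
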