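import Pool.Agent.U152.RK.Conj

/-!
# Automorphisms of fields of least degree
-/

set_option autoImplicit false

namespace Pool.Agent.U152.RK

open Module Pool.Agent.U10.Shr IntermediateField

variable {k : Type*} [Field k] {A : Type} [Field A] [Algebra k A] [IsGalois k A]
variable {R : Type*} [CommRing R] [IsDomain R] [CharZero R] {M : Type*}
  [AddCommGroup M] [Module R M] {a : (A ≃ₐ[k] A) →* Module.End R M} (L : LocData a)

/-- an extension of an automorphism -/
noncomputable def lft {F : IntermediateField k A} (σ : F ≃ₐ[k] F) : A ≃ₐ[k] A := σ.liftNormal A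

theorem lft_apply {F : IntermediateField k A} (σ : F ≃ₐ[k] F) (y : F) :
    lft σ (y : A) = (σ y : A) := AlgEquiv.liftNormal_commutes σ A y

theorem lft_inv_apply {F : IntermediateField k A} (σ : F ≃ₐ[k] F) (y : F) :
    (lft σ)⁻¹ (y : A) = (σ⁻¹ y : A) := by
  have h1 : σ (σ⁻¹ y) = y := by
    rw [← AlgEquiv.mul_apply, mul_inv_cancel, AlgEquiv.one_apply]
  have h2 := lft_apply σ (σ⁻¹ y)
  rw [h1] at h2
  rw [← h2, ← AlgEquiv.mul_apply, inv_mul_cancel, AlgEquiv.one_apply]

theorem lft_norm {F : IntermediateField k A} (σ : F ≃ₐ[k] F) {h : A ≃ₐ[k] A}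
    (hh : h ∈ F.fixingSubgroup) : (lft σ)⁻¹ * h * lft σ ∈ F.fixingSubgroup := by
  rw [IntermediateField.mem_fixingSubgroup_iff] at hh ⊢
  intro y hy
  have h1 := lft_apply σ ⟨y, hy⟩
  change lft σ y = _ at h1
  rw [AlgEquiv.mul_apply, AlgEquiv.mul_apply, h1, hh _ (σ ⟨y, hy⟩).2, ← h1, ← AlgEquiv.mul_apply,
    inv_mul_cancel, AlgEquiv.one_apply]

theorem lft_mul {F : IntermediateField k A} (σ τ : F ≃ₐ[k] F) :
    (lft σ * lft τ)⁻¹ * lft (σ * τ) ∈ F.fixingSubgroup := by
  rw [IntermediateField.mem_fixingSubgroup_iff]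
  intro y hy
  have h1 := lft_apply (σ * τ) ⟨y, hy⟩
  change lft (σ * τ) y = _ at h1
  rw [mul_inv_rev, AlgEquiv.mul_apply, AlgEquiv.mul_apply, h1, lft_inv_apply, lft_inv_apply,
    ← AlgEquiv.mul_apply, ← AlgEquiv.mul_apply]
  have h2 : τ⁻¹ * σ⁻¹ * (σ * τ) = 1 := by group
  rw [h2]
  rfl

theorem lft_one {F : IntermediateField k A} : lft (1 : F ≃ₐ[k] F) ∈ F.fixingSubgroup := by
  rw [IntermediateField.mem_fixingSubgroup_iff]
  intro y hy
  exact lft_apply (1 : F ≃ₐ[k] F) ⟨y, hy⟩

/-- The action of the automorphisms of `F` on the classes fixed by `Gal(A/F)`. -/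
noncomputable def actF (N : Subgroup (A ≃ₐ[k] A)) [hN : N.Normal] (F : IntermediateField k A) :
    (F ≃ₐ[k] F) →* Module.End R (L.inv N F.fixingSubgroup) where
  toFun σ := LinearMap.restrict (L.cj' N (lft σ)) (fun x hx h hh => by
    rw [← cj'_mul]
    have h1 : h * lft σ = lft σ * ((lft σ)⁻¹ * h * lft σ) := by group
    rw [h1, cj'_mul, hx _ (lft_norm σ hh)])
  map_one' := by
    refine LinearMap.ext fun x => Subtype.ext ?_
    exact x.2 _ lft_one
  map_mul' σ τ := by
    refine LinearMap.ext fun x => Subtype.ext ?_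
    change L.cj' N (lft (σ * τ)) x.1 = L.cj' N (lft σ) (L.cj' N (lft τ) x.1)
    have h1 : lft (σ * τ) = lft σ * lft τ * ((lft σ * lft τ)⁻¹ * lft (σ * τ)) := by group
    rw [h1, cj'_mul, x.2 _ (lft_mul σ τ), cj'_mul]

/-- **Automorphisms.** -/
theorem aut_step {F : IntermediateField k A} [FiniteDimensional k F] (B : Subgroup (F ≃ₐ[k] F))
    {q r : ℕ} (hq : q.Prime) (hr : r.Prime) (hB : Nat.card B = q * r) (hnc : ¬ IsCyclic B)
    (hsub : ∀ E < F, Zr L E.fixingSubgroup) : Zr L F.fixingSubgroup := by
  obtain ⟨N, hN, hNf, hNo, hNF⟩ := exists_normal F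
  have : Finite B := Nat.finite_of_card_ne_zero (by
    rw [hB]
    exact mul_ne_zero hq.ne_zero hr.ne_zero)
  rw [zr_iff L hNF hNo]
  intro x hx
  have h1 : Tor R (⟨x, hx⟩ : L.inv N F.fixingSubgroup) := by
    refine partition (B := B) ((actF L N F).comp B.subtype) ?_ ?_ ?_ ?_ _
    · rw [hB]
      exact Nat.not_prime_mul hq.ne_one hr.ne_one
    · by_contra hcon
      push Not at hcon
      have h2 : Subsingleton B := ⟨fun b b' => by rw [hcon b, hcon b']⟩
      have h3 : Nat.card B ≤ 1 := Finite.card_le_one_iff_subsingleton.2 h2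
      rw [hB] at h3
      have h4 := Nat.mul_le_mul hq.two_le hr.two_le
      omega
    · intro b hb
      have h2 : orderOf b ∣ q * r := hB ▸ orderOf_dvd_natCard b
      obtain ⟨d, e, hd, he, hde⟩ := (Nat.dvd_mul).1 h2
      have hb1 : orderOf b ≠ 1 := fun h => hb (orderOf_eq_one_iff.1 h)
      rcases (Nat.dvd_prime hq).1 hd with rfl | rfl <;> rcases (Nat.dvd_prime hr).1 he with rfl | rfl
      · exact absurd hde.symm hb1
      · rw [← hde, one_mul]
        exact hr
      · rw [← hde, mul_one]
        exact hq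
      · exact absurd (isCyclic_of_orderOf_eq_card b (by rw [hB, hde])) hnc
    · rintro ⟨b, hbB⟩ hb ⟨y, hy⟩ hby
      have hb' : b ≠ 1 := fun h => hb (Subtype.ext h)
      have hby' : L.cj' N (lft b) y = y := congrArg Subtype.val hby
      have h2 : y ∈ L.inv N (F.fixingSubgroup ⊔ Subgroup.zpowers (lft b)) := by
        rw [Pool.Agent.U10.Shr.inv_sup]
        refine ⟨hy, ?_⟩
        have h3 : Subgroup.zpowers (lft b) ≤
            { carrier := {g | L.cj' N g y = y}
              mul_mem' := by
                intro g h hg hh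
                change L.cj' N (g * h) y = y
                rw [cj'_mul, hh, hg]
              one_mem' := cj'_one L N y
              inv_mem' := by
                intro g hg
                change L.cj' N g⁻¹ y = y
                have h1 : L.cj' N g⁻¹ (L.cj' N g y) = y := by
                  rw [← cj'_mul, inv_mul_cancel, cj'_one]
                rw [hg] at h1
                exact h1 } := (Subgroup.zpowers_le (g := lft b)).2 hby'
        exact fun g hg => h3 hg
      set W := F.fixingSubgroup ⊔ Subgroup.zpowers (lft b) with hW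
      have hWo : IsOpen (W : Set (A ≃ₐ[k] A)) :=
        Subgroup.isOpen_mono (hNF.trans le_sup_left) hNo
      have hWf : (fixedField W).fixingSubgroup = W := fix_open W hWo
      have hle : fixedField W ≤ F := by
        conv_rhs => rw [← InfiniteGalois.fixedField_fixingSubgroup F]
        exact IntermediateField.fixedField_antitone le_sup_left
      have hne : fixedField W ≠ F := by
        intro h3
        rw [h3] at hWf
        have h4 : lft b ∈ F.fixingSubgroup := by
          rw [hWf]
          exact Subgroup.mem_sup_right (Subgroup.mem_zpowers _)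
        apply hb'
        ext z
        have h5 := (IntermediateField.mem_fixingSubgroup_iff _ _).1 h4 z z.2
        have h6 := lft_apply b z
        change (b z : A) = z
        rw [← h6]
        exact h5
      have h3 := hsub _ (lt_of_le_of_ne hle hne)
      rw [hWf, zr_iff L (hNF.trans le_sup_left) hNo] at h3
      obtain ⟨c, hc, h4⟩ := h3 y h2
      exact ⟨c, hc, Subtype.ext h4⟩
  exact h1.map (L.inv N F.fixingSubgroup).subtype

end Pool.Agent.U152.RK
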