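import Pool.Agent.U152.RK.Eng

/-!
# Ranks of cohomology classes with local conditions: all the conjugates of an involution, automorphisms
-/

set_option autoImplicit false

namespace Pool.Agent.U152.RK

open Module Pool.Agent.U10.Shr
open Pool.Agent.X310.Mu (comms)

variable {R : Type*} [CommRing R] [IsDomain R] [CharZero R] {G : Type} {M : Type*} [Group G]
  [TopologicalSpace G] [AddCommGroup M] [Module R M] {a : G →* Module.End R M} (L : LocData a)

/-- the elements which fix `x` -/
def fx (N : Subgroup G) [hN : N.Normal] (x : L.Sh N) : Subgroup G where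
  carrier := {g | L.cj' N g x = x}
  mul_mem' := by
    intro g h hg hh
    change L.cj' N (g * h) x = x
    rw [cj'_mul, hh, hg]
  one_mem' := cj'_one L N x
  inv_mem' := by
    intro g hg
    change L.cj' N g⁻¹ x = x
    have h1 : L.cj' N g⁻¹ (L.cj' N g x) = x := by
      rw [← cj'_mul, inv_mul_cancel, cj'_one]
    rw [hg] at h1
    exact h1

omit [IsDomain R] [CharZero R] in
theorem mem_inv_iff {N : Subgroup G} [hN : N.Normal] {K : Subgroup G} {x : L.Sh N} :
    x ∈ L.inv N K ↔ K ≤ fx L N x := Iff.rfl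

/-- the elements which fix `x` modulo torsion -/
def tf (N : Subgroup G) [hN : N.Normal] (x : L.Sh N) : Subgroup G where
  carrier := {m | Tor R (L.cj' N m x - x)}
  mul_mem' := by
    intro m m' hm hm'
    change Tor R (L.cj' N (m * m') x - x)
    have h1 : L.cj' N (m * m') x - x = L.cj' N m (L.cj' N m' x - x) + (L.cj' N m x - x) := by
      rw [map_sub, cj'_mul]
      abel
    rw [h1]
    exact (Tor.map (L.cj' N m) hm').add hm
  one_mem' := by
    change Tor R (L.cj' N 1 x - x)
    rw [cj'_one, sub_self]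
    exact Tor.zero
  inv_mem' := by
    intro m hm
    change Tor R (L.cj' N m⁻¹ x - x)
    have h1 : L.cj' N m⁻¹ x - x = - L.cj' N m⁻¹ (L.cj' N m x - x) := by
      rw [map_sub, ← cj'_mul, inv_mul_cancel, cj'_one]
      abel
    rw [h1]
    exact (Tor.map (L.cj' N m⁻¹) hm).neg

/-- If `K` fixes `x` modulo torsion and the `K`-invariant elements are torsion, so is `x`. -/
theorem tor_of_fix {N K : Subgroup G} (h : N ≤ K) [hN : N.Normal] [hf : N.FiniteIndex]
    (hop : IsOpen (N : Set G)) {x : L.Sh N} (h1 : K ≤ tf L N x)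
    (h2 : ∀ y ∈ L.inv N K, Tor R y) : Tor R x := by
  classical
  have : Fintype (K ⧸ N.subgroupOf K) := Fintype.ofFinite _
  have h3 : Tor R (L.res' h (L.co' h hop x)) := h2 _ fun g hg => cj_res L h g hg _
  rw [res_co] at h3
  have h4 : Tor R (∑ q : K ⧸ N.subgroupOf K, L.cj' N ((rp q : K) : G) x) :=
    h3.of_nsmul index_pos
  have h5 : Tor R (∑ q : K ⧸ N.subgroupOf K, (L.cj' N ((rp q : K) : G) x - x)) :=
    Tor.sum fun q _ => h1 (rp q).2
  rw [Finset.sum_sub_distrib, Finset.sum_const] at h5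
  have h6 := h4.sub h5
  rw [sub_sub_cancel] at h6
  exact h6.of_nsmul (by
    rw [Finset.card_univ, ← Nat.card_eq_fintype_card]
    exact index_pos)

omit [IsDomain R] [CharZero R] in
theorem add_conj_mem {N H H₂ : Subgroup G} [hN : N.Normal] {c : G} (hcc : c * c = 1)
    (h2 : ∀ m ∈ H₂, c⁻¹ * m * c ∈ H) {x : L.Sh N} (hx : x ∈ L.inv N H) :
    x + L.cj' N c x ∈ L.inv N ((H ⊓ H₂) ⊔ Subgroup.zpowers c) := by
  rw [mem_inv_iff]
  refine sup_le ?_ ((Subgroup.zpowers_le (g := c)).2 ?_)
  · rintro m ⟨hm1, hm2⟩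
    change L.cj' N m (x + L.cj' N c x) = x + L.cj' N c x
    rw [map_add, hx m hm1, ← cj'_mul]
    have h3 : m * c = c * (c⁻¹ * m * c) := by group
    rw [h3, cj'_mul, hx _ (h2 m hm2)]
  · change L.cj' N c (x + L.cj' N c x) = x + L.cj' N c x
    rw [map_add, ← cj'_mul, hcc, cj'_one, add_comm]

/-- **All the conjugates of an involution.** -/
theorem zr_step {N H : Subgroup G} (h : N ≤ H) [hN : N.Normal] [hf : N.FiniteIndex]
    (hop : IsOpen (N : Set G)) {c : G} (hcc : c * c = 1)
    (hg : ∀ g : G, ∃ H₂ : Subgroup G, (∀ m ∈ H₂, (g * c * g⁻¹)⁻¹ * m * (g * c * g⁻¹) ∈ H) ∧ N ≤ H₂ ∧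
      Zr L ((H ⊓ H₂) ⊔ Subgroup.zpowers (g * c * g⁻¹)))
    (hcm : Zr L (H ⊔ comms c)) : Zr L H := by
  rw [zr_iff L h hop]
  intro x hx
  have h1 : ∀ g : G, Tor R (x + L.cj' N (g * c * g⁻¹) x) := by
    intro g
    obtain ⟨H₂, h2, h3, h4⟩ := hg g
    rw [zr_iff L ((le_inf h h3).trans le_sup_left) hop] at h4
    refine h4 _ (add_conj_mem L ?_ h2 hx)
    have h5 : g * c * g⁻¹ * (g * c * g⁻¹) = g * (c * c) * g⁻¹ := by group
    rw [h5, hcc, mul_one, mul_inv_cancel]
  rw [zr_iff L (h.trans le_sup_left) hop] at hcm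
  refine tor_of_fix L (h.trans le_sup_left) hop (sup_le ?_ ?_) hcm
  · intro m hm
    change Tor R (L.cj' N m x - x)
    rw [hx m hm, sub_self]
    exact Tor.zero
  · unfold comms
    rw [Subgroup.closure_le]
    rintro _ ⟨g, rfl⟩
    change Tor R (L.cj' N (g * c * g⁻¹ * c⁻¹) x - x)
    have hci : c⁻¹ = c := inv_eq_of_mul_eq_one_right hcc
    have h5 := h1 1
    rw [one_mul, inv_one, mul_one] at h5
    have h6 := (Tor.map (L.cj' N (g * c * g⁻¹)) h5).sub (h1 g)
    rw [map_add, ← cj'_mul] at h6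
    rw [hci]
    have h7 : L.cj' N (g * c * g⁻¹) x + L.cj' N (g * c * g⁻¹ * c) x - (x + L.cj' N (g * c * g⁻¹) x) =
        L.cj' N (g * c * g⁻¹ * c) x - x := by abel
    rwa [h7] at h6

omit [IsDomain R] [CharZero R] [TopologicalSpace G] in
/-- The degree of the field `(F · cF) ∩ ℝ`. -/
theorem index_bound {H H₂ : Subgroup G} [hf : H.FiniteIndex] {c : G} (hc : c ∉ H)
    (h2 : ∀ m, m ∈ H₂ ↔ c⁻¹ * m * c ∈ H) :
    2 * ((H ⊓ H₂) ⊔ Subgroup.zpowers c).index ≤ H.index * (H.index - 1) := by
  classical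
  have : Finite (G ⧸ H) := inferInstance
  set W₀ := H ⊓ H₂ with hW₀
  have hrel : W₀.relIndex H ≤ H.index - 1 := by
    let f : H ⧸ W₀.subgroupOf H → {q : G ⧸ H // q ≠ ((1 : G) : G ⧸ H)} :=
      Quotient.lift (fun h : H => ⟨(((h : G) * c : G) : G ⧸ H), by
        intro h3
        have h4 := QuotientGroup.eq.1 h3
        rw [mul_one] at h4
        have h5 : (h : G) * c ∈ H := by
          have h6 := H.inv_mem h4
          rwa [inv_inv] at h6
        have h6 := H.mul_mem (H.inv_mem h.2) h5
        rw [inv_mul_cancel_left] at h6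
        exact hc h6⟩) (by
        intro x y hxy
        have h3 : x⁻¹ * y ∈ W₀.subgroupOf H := QuotientGroup.leftRel_apply.1 hxy
        have h4 : ((x⁻¹ * y : H) : G) ∈ W₀ := h3
        apply Subtype.ext
        apply QuotientGroup.eq.2
        have h5 := (h2 _).1 h4.2
        rw [Subgroup.coe_mul, Subgroup.coe_inv] at h5
        have h6 : ((x : G) * c)⁻¹ * ((y : G) * c) = c⁻¹ * ((x : G)⁻¹ * y) * c := by group
        rw [h6]
        exact h5)
    have hinj : Function.Injective f := by
      intro x y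
      induction x using QuotientGroup.induction_on with
      | H x =>
        induction y using QuotientGroup.induction_on with
        | H y =>
          intro hxy
          have h3 : (((x : G) * c : G) : G ⧸ H) = (((y : G) * c : G) : G ⧸ H) :=
            congrArg Subtype.val hxy
          have h4 := QuotientGroup.eq.1 h3
          apply QuotientGroup.eq.2
          change ((x⁻¹ * y : H) : G) ∈ W₀
          refine ⟨(x⁻¹ * y).2, (h2 _).2 ?_⟩
          rw [Subgroup.coe_mul, Subgroup.coe_inv]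
          have h6 : ((x : G) * c)⁻¹ * ((y : G) * c) = c⁻¹ * ((x : G)⁻¹ * y) * c := by group
          rw [← h6]
          exact h4
    have h3 := Nat.card_le_card_of_injective f hinj
    have h4 : Nat.card {q : G ⧸ H // q ≠ ((1 : G) : G ⧸ H)} = H.index - 1 := by
      have : Fintype (G ⧸ H) := Fintype.ofFinite _
      rw [Nat.card_eq_fintype_card, Fintype.card_subtype, Finset.filter_ne',
        Finset.card_erase_of_mem (Finset.mem_univ _), Finset.card_univ]
      unfold Subgroup.index
      rw [Nat.card_eq_fintype_card]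
    rw [h4] at h3
    exact h3
  have h3 : W₀.relIndex H * H.index = W₀.index := Subgroup.relIndex_mul_index inf_le_left
  have h4 : W₀.relIndex (W₀ ⊔ Subgroup.zpowers c) * (W₀ ⊔ Subgroup.zpowers c).index = W₀.index :=
    Subgroup.relIndex_mul_index le_sup_left
  have hW₀i : W₀.index ≠ 0 := by
    rw [← h3]
    refine mul_ne_zero ?_ hf.index_ne_zero
    intro h5
    have h6 : H₂.FiniteIndex := by
      have h8 : H₂ = H.comap (MulAut.conj c⁻¹).toMonoidHom := by
        ext m
        rw [h2, Subgroup.mem_comap]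
        simp
      rw [h8]
      exact ⟨by
        rw [Subgroup.index_comap_of_surjective _ (MulAut.conj c⁻¹).surjective]
        exact hf.index_ne_zero⟩
    have h7 : W₀.FiniteIndex := inferInstance
    exact h7.index_ne_zero (by rw [← h3, h5, zero_mul])
  have h5 : 2 ≤ W₀.relIndex (W₀ ⊔ Subgroup.zpowers c) := by
    by_contra hcon
    have h6 : W₀.relIndex (W₀ ⊔ Subgroup.zpowers c) = 1 := by
      have h7 : W₀.relIndex (W₀ ⊔ Subgroup.zpowers c) ≠ 0 := by
        intro h8
        rw [h8, zero_mul] at h4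
        exact hW₀i h4.symm
      omega
    rw [Subgroup.relIndex_eq_one] at h6
    exact hc (h6 (Subgroup.mem_sup_right (Subgroup.mem_zpowers c))).1
  calc 2 * (W₀ ⊔ Subgroup.zpowers c).index
      ≤ W₀.relIndex (W₀ ⊔ Subgroup.zpowers c) * (W₀ ⊔ Subgroup.zpowers c).index :=
        Nat.mul_le_mul_right _ h5
    _ = W₀.relIndex H * H.index := by rw [h4, h3]
    _ ≤ H.index * (H.index - 1) := by
        rw [mul_comm]
        exact Nat.mul_le_mul_left _ hrel

end Pool.Agent.U152.RK
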