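import Pool.Agent.U10.Shr.Tw
import Pool.Agent.U10.Shr.Gal
import Pool.Agent.X310.MuDefs

/-!
# Ranks of cohomology classes with local conditions: involutions and free actions
-/

set_option autoImplicit false

namespace Pool.Agent.U152.RK

open Module Pool.Agent.U10.Shr
open Pool.Agent.X310.Mu (comms)

section tor

variable {R : Type*} [CommRing R] [IsDomain R] {V : Type*} [AddCommGroup V] [Module R V]

/-- torsion elements -/
def Tor (R : Type*) [CommRing R] {V : Type*} [AddCommGroup V] [Module R V] (x : V) : Prop :=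
  ∃ c : R, c ≠ 0 ∧ c • x = 0

theorem Tor.zero : Tor R (0 : V) := ⟨1, one_ne_zero, smul_zero _⟩

theorem Tor.add {x y : V} (hx : Tor R x) (hy : Tor R y) : Tor R (x + y) := by
  obtain ⟨c, hc, h1⟩ := hx
  obtain ⟨d, hd, h2⟩ := hy
  refine ⟨c * d, mul_ne_zero hc hd, ?_⟩
  rw [smul_add, mul_comm c d, mul_smul, h1, smul_zero, zero_add, mul_comm, mul_smul, h2, smul_zero]

theorem Tor.smul {x : V} (hx : Tor R x) (d : R) : Tor R (d • x) := by
  obtain ⟨c, hc, h1⟩ := hx
  exact ⟨c, hc, by rw [smul_comm, h1, smul_zero]⟩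

theorem Tor.neg {x : V} (hx : Tor R x) : Tor R (-x) := by
  have h := hx.smul (-1 : R)
  rwa [neg_smul, one_smul] at h

theorem Tor.sub {x y : V} (hx : Tor R x) (hy : Tor R y) : Tor R (x - y) := by
  rw [sub_eq_add_neg]
  exact hx.add hy.neg

theorem Tor.map {W : Type*} [AddCommGroup W] [Module R W] (f : V →ₗ[R] W) {x : V} (hx : Tor R x) :
    Tor R (f x) := by
  obtain ⟨c, hc, h1⟩ := hx
  exact ⟨c, hc, by rw [← map_smul, h1, map_zero]⟩

theorem Tor.sum {ι : Type*} {s : Finset ι} {f : ι → V} (h : ∀ i ∈ s, Tor R (f i)) :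
    Tor R (∑ i ∈ s, f i) := by
  classical
  induction s using Finset.induction_on with
  | empty => simpa using Tor.zero
  | insert i s hi ih =>
    rw [Finset.sum_insert hi]
    exact (h i (Finset.mem_insert_self _ _)).add (ih fun j hj => h j (Finset.mem_insert_of_mem hj))

theorem Tor.of_smul {c : R} (hc : c ≠ 0) {x : V} (h : Tor R (c • x)) : Tor R x := by
  obtain ⟨d, hd, h1⟩ := h
  exact ⟨d * c, mul_ne_zero hd hc, by rw [mul_smul, h1]⟩

theorem Tor.of_nsmul [CharZero R] {n : ℕ} (hn : n ≠ 0) {x : V} (h : Tor R (n • x)) : Tor R x := by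
  refine Tor.of_smul (c := (n : R)) (Nat.cast_ne_zero.2 hn) ?_
  rwa [Nat.cast_smul_eq_nsmul]

/-- The partition argument: a group which is not of prime order and in which all the elements have
prime order does not act freely. -/
theorem partition [CharZero R] {B : Type*} [Group B] [Finite B] (ρ : B →* Module.End R V)
    (hB : ¬ (Nat.card B).Prime) (hB1 : ∃ b : B, b ≠ 1) (ho : ∀ b : B, b ≠ 1 → (orderOf b).Prime)
    (hfree : ∀ b : B, b ≠ 1 → ∀ x, ρ b x = x → Tor R x) (x : V) : Tor R x := by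
  classical
  have := Fintype.ofFinite B
  let 𝒞 : Finset (Subgroup B) := (Finset.univ.filter fun b : B => b ≠ 1).image Subgroup.zpowers
  have hmem : ∀ C ∈ 𝒞, ∃ b : B, b ≠ 1 ∧ Subgroup.zpowers b = C := by
    intro C hC
    obtain ⟨b, hb, rfl⟩ := Finset.mem_image.1 hC
    exact ⟨b, (Finset.mem_filter.1 hb).2, rfl⟩
  have huniq : ∀ C ∈ 𝒞, ∀ b ∈ C, b ≠ 1 → C = Subgroup.zpowers b := by
    intro C hC b hb hb1
    obtain ⟨b', hb', rfl⟩ := hmem C hC
    have h1 : Subgroup.zpowers b ≤ Subgroup.zpowers b' := (Subgroup.zpowers_le (g := b)).2 hb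
    have h2 : Nat.card (Subgroup.zpowers b') = orderOf b' := Nat.card_zpowers b'
    have h3 : Nat.card (Subgroup.zpowers b) = orderOf b := Nat.card_zpowers b
    have h4 : orderOf b ∣ orderOf b' := by
      rw [← h2, ← h3]
      exact Subgroup.card_dvd_of_le h1
    have h5 : orderOf b = orderOf b' := by
      rcases (Nat.dvd_prime (ho b' hb')).1 h4 with h6 | h6
      · exact absurd (orderOf_eq_one_iff.1 h6) hb1
      · exact h6
    exact (Subgroup.eq_of_le_of_card_ge h1 (by rw [h2, h3, h5])).symm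
  -- at least two subgroups
  have hcard : 1 < 𝒞.card := by
    rw [Finset.one_lt_card]
    obtain ⟨b, hb⟩ := hB1
    have h1 : Subgroup.zpowers b ∈ 𝒞 := Finset.mem_image.2 ⟨b, by simp [hb], rfl⟩
    by_contra hcon
    push Not at hcon
    have h2 : ∀ b' : B, b' ∈ Subgroup.zpowers b := by
      intro b'
      by_cases h3 : b' = 1
      · rw [h3]
        exact one_mem _
      · have h4 := hcon _ h1 (Subgroup.zpowers b') (Finset.mem_image.2 ⟨b', by simp [h3], rfl⟩)
        rw [h4]
        exact Subgroup.mem_zpowers b'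
    have h3 : Nat.card B = orderOf b := by
      rw [← Nat.card_zpowers, (Subgroup.eq_top_iff' _).2 h2, Subgroup.card_top]
    exact hB (h3 ▸ ho b hb)
  -- the sums over subgroups
  have hsub : ∀ C : Subgroup B, C ≠ ⊥ → Tor R (∑ b ∈ Finset.univ.filter (fun b => b ∈ C), ρ b x) := by
    intro C hC
    obtain ⟨c', hc'⟩ := Subgroup.ne_bot_iff_exists_ne_one.1 hC
    obtain ⟨c, hc, hc1⟩ : ∃ c : B, c ∈ C ∧ c ≠ 1 := ⟨c', c'.2, fun h => hc' (Subtype.ext h)⟩
    refine hfree c hc1 _ ?_
    rw [map_sum]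
    refine Finset.sum_bij' (fun b _ => c * b) (fun b _ => c⁻¹ * b) ?_ ?_ ?_ ?_ ?_
    · intro b hb
      simp only [Finset.mem_filter, Finset.mem_univ, true_and] at hb ⊢
      exact C.mul_mem hc hb
    · intro b hb
      simp only [Finset.mem_filter, Finset.mem_univ, true_and] at hb ⊢
      exact C.mul_mem (C.inv_mem hc) hb
    · intro b _
      simp
    · intro b _
      simp
    · intro b _
      rw [map_mul]
      rfl
  have hne : ∀ C ∈ 𝒞, C ≠ ⊥ := by
    intro C hC h
    obtain ⟨b, hb, rfl⟩ := hmem C hC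
    exact hb (Subgroup.zpowers_eq_bot.1 h)
  have htop : (⊤ : Subgroup B) ≠ ⊥ := by
    obtain ⟨b, hb⟩ := hB1
    intro h
    have h1 : b ∈ (⊤ : Subgroup B) := trivial
    rw [h] at h1
    exact hb (Subgroup.mem_bot.1 h1)
  have h1 : Tor R (∑ C ∈ 𝒞, ∑ b ∈ Finset.univ.filter (fun b => b ∈ C), ρ b x) :=
    Tor.sum fun C hC => hsub C (hne C hC)
  have h2 : Tor R (∑ b : B, ρ b x) := by
    have h3 := hsub ⊤ htop
    simpa using h3
  -- double counting
  have h3 : ∑ C ∈ 𝒞, ∑ b ∈ Finset.univ.filter (fun b => b ∈ C), ρ b x =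
      ∑ b : B, (𝒞.filter fun C => b ∈ C).card • ρ b x := by
    have h4 : ∀ C ∈ 𝒞, ∑ b ∈ Finset.univ.filter (fun b => b ∈ C), ρ b x =
        ∑ b : B, if b ∈ C then ρ b x else 0 := fun C _ => Finset.sum_filter _ _
    rw [Finset.sum_congr rfl h4, Finset.sum_comm]
    refine Finset.sum_congr rfl fun b _ => ?_
    rw [← Finset.sum_filter, Finset.sum_const]
  have h5 : ∑ b : B, (𝒞.filter fun C => b ∈ C).card • ρ b x = ∑ b : B, ρ b x + (𝒞.card - 1) • x := by
    rw [← Finset.add_sum_erase Finset.univ (fun b => (𝒞.filter fun C => b ∈ C).card • ρ b x)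
        (Finset.mem_univ (1 : B)),
      ← Finset.add_sum_erase Finset.univ (fun b => ρ b x) (Finset.mem_univ (1 : B))]
    have h6 : (𝒞.filter fun C => (1 : B) ∈ C) = 𝒞 := by
      rw [Finset.filter_true_of_mem]
      exact fun C _ => one_mem C
    have h7 : ∀ b ∈ Finset.univ.erase (1 : B), (𝒞.filter fun C => b ∈ C).card • ρ b x = ρ b x := by
      intro b hb
      have hb1 : b ≠ 1 := Finset.ne_of_mem_erase hb
      have h8 : (𝒞.filter fun C => b ∈ C) = {Subgroup.zpowers b} := by
        ext C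
        rw [Finset.mem_filter, Finset.mem_singleton]
        constructor
        · rintro ⟨h9, h10⟩
          exact huniq C h9 b h10 hb1
        · rintro rfl
          exact ⟨Finset.mem_image.2 ⟨b, by simp [hb1], rfl⟩, Subgroup.mem_zpowers b⟩
      rw [h8, Finset.card_singleton, one_smul]
    rw [h6, Finset.sum_congr rfl h7, map_one]
    have h8 : 𝒞.card • (1 : Module.End R V) x = x + (𝒞.card - 1) • x := by
      show 𝒞.card • x = x + (𝒞.card - 1) • x
      rw [← succ_nsmul']
      congr 1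
      omega
    rw [h8]
    show x + (𝒞.card - 1) • x + _ = x + _ + (𝒞.card - 1) • x
    abel
  rw [h3, h5] at h1
  have h6 := h1.sub h2
  rw [add_sub_cancel_left] at h6
  exact h6.of_nsmul (by omega)

end tor

section eng

variable {R : Type*} [CommRing R] [IsDomain R] [CharZero R] {G : Type} {M : Type*} [Group G]
  [TopologicalSpace G] [AddCommGroup M] [Module R M] {a : G →* Module.End R M} (L : LocData a)

/-- All the classes are torsion. -/
def Zr (H : Subgroup G) : Prop := ∀ x : L.Sh H, Tor R x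

theorem zr_cr (H : Subgroup G) : Zr L H ↔ L.cr H = 0 := by
  unfold LocData.cr Zr Tor
  rw [rank_eq_zero_iff]

theorem zr_iff {N H : Subgroup G} (h : N ≤ H) [hN : N.Normal] [hf : N.FiniteIndex]
    (hop : IsOpen (N : Set G)) : Zr L H ↔ ∀ x ∈ L.inv N H, Tor R x := by
  rw [zr_cr, cr_eq L h hop, rank_eq_zero_iff]
  constructor
  · intro h1 x hx
    obtain ⟨c, hc, h2⟩ := h1 ⟨x, hx⟩
    exact ⟨c, hc, congrArg Subtype.val h2⟩
  · rintro h1 ⟨x, hx⟩
    obtain ⟨c, hc, h2⟩ := h1 x hx
    exact ⟨c, hc, Subtype.ext h2⟩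

theorem zr_mono {N H K : Subgroup G} (h : N ≤ H) (hHK : H ≤ K) [hN : N.Normal] [hf : N.FiniteIndex]
    (hop : IsOpen (N : Set G)) (hz : Zr L H) : Zr L K := by
  rw [zr_iff L (h.trans hHK) hop]
  rw [zr_iff L h hop] at hz
  exact fun x hx => hz x (inv_anti L N hHK hx)

/-- If the elements fixed by an involution are torsion, the commutators with it act trivially. -/
theorem comms_trivial {N : Subgroup G} [hN : N.Normal] {c : G} (hcc : c * c ∈ N)
    (h : ∀ x ∈ L.inv N (N ⊔ Subgroup.zpowers c), Tor R x) :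
    ∀ m ∈ N ⊔ comms c, ∀ x, Tor R (L.cj' N m x - x) := by
  have h1 : ∀ x, Tor R (x + L.cj' N c x) := by
    intro x
    refine h _ ?_
    rw [inv_eq_ker, LinearMap.mem_ker, LinearMap.sub_apply, sub_eq_zero]
    show L.cj' N c (x + L.cj' N c x) = x + L.cj' N c x
    rw [map_add, ← cj'_mul, cj'_self L N _ hcc, add_comm]
  have h2 : ∀ x, Tor R (x + L.cj' N c⁻¹ x) := by
    intro x
    have h3 := (h1 x).map (L.cj' N c⁻¹)
    rw [map_add, ← cj'_mul, inv_mul_cancel, cj'_one] at h3
    rwa [add_comm] at h3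
  let T : Subgroup G :=
    { carrier := {m | ∀ x, Tor R (L.cj' N m x - x)}
      mul_mem' := by
        intro m m' hm hm' x
        rw [cj'_mul]
        have h3 := (hm (L.cj' N m' x)).add (hm' x)
        rwa [sub_add_sub_cancel] at h3
      one_mem' := by
        intro x
        rw [cj'_one, sub_self]
        exact Tor.zero
      inv_mem' := by
        intro m hm x
        have h3 := (hm (L.cj' N m⁻¹ x)).neg
        rwa [← cj'_mul, mul_inv_cancel, cj'_one, neg_sub] at h3 }
  have hT : N ⊔ comms c ≤ T := by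
    refine sup_le (fun n hn x => ?_) ?_
    · rw [cj'_self L N n hn, sub_self]
      exact Tor.zero
    · unfold comms
      rw [Subgroup.closure_le]
      rintro _ ⟨g, rfl⟩ x
      show Tor R (L.cj' N (g * c * g⁻¹ * c⁻¹) x - x)
      -- `g c g⁻¹ y = - y` modulo torsion
      have h3 : ∀ y, Tor R (y + L.cj' N (g * c * g⁻¹) y) := by
        intro y
        have h4 := (h1 (L.cj' N g⁻¹ y)).map (L.cj' N g)
        rwa [map_add, ← cj'_mul, ← cj'_mul, ← cj'_mul, mul_inv_cancel, cj'_one] at h4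
      have h4 := h3 (L.cj' N c⁻¹ x)
      rw [← cj'_mul] at h4
      have h5 := h4.sub (h2 x)
      have h6 : L.cj' N c⁻¹ x + L.cj' N (g * c * g⁻¹ * c⁻¹) x - (x + L.cj' N c⁻¹ x) =
          L.cj' N (g * c * g⁻¹ * c⁻¹) x - x := by abel
      rwa [h6] at h5
  exact fun m hm => hT hm

/-- If `H` acts trivially modulo torsion and the `H`-invariant elements are torsion, everything is. -/
theorem tor_of_trivial {N H : Subgroup G} (h : N ≤ H) [hN : N.Normal] [hf : N.FiniteIndex]
    (hop : IsOpen (N : Set G)) (h1 : ∀ m ∈ H, ∀ x, Tor R (L.cj' N m x - x))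
    (h2 : ∀ x ∈ L.inv N H, Tor R x) (x : L.Sh N) : Tor R x := by
  classical
  have : Fintype (H ⧸ N.subgroupOf H) := Fintype.ofFinite _
  have h3 : Tor R (L.res' h (L.co' h hop x)) := h2 _ fun g hg => cj_res L h g hg _
  rw [res_co] at h3
  have h4 : Tor R (∑ q : H ⧸ N.subgroupOf H, L.cj' N ((rp q : H) : G) x) :=
    h3.of_nsmul index_pos
  have h5 : Tor R (∑ q : H ⧸ N.subgroupOf H, (L.cj' N ((rp q : H) : G) x - x)) :=
    Tor.sum fun q _ => h1 _ (rp q).2 x
  rw [Finset.sum_sub_distrib, Finset.sum_const] at h5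
  have h6 := h4.sub h5
  rw [sub_sub_cancel] at h6
  exact h6.of_nsmul (by
    rw [Finset.card_univ, ← Nat.card_eq_fintype_card]
    exact index_pos)

/-- **Involutions.** -/
theorem zr_inv {N : Subgroup G} [hN : N.Normal] [hf : N.FiniteIndex] (hop : IsOpen (N : Set G))
    {c : G} (hcc : c * c ∈ N) (h1 : Zr L (N ⊔ Subgroup.zpowers c)) (h2 : Zr L (N ⊔ comms c)) :
    Zr L N := by
  rw [zr_iff L le_sup_left hop] at h1 h2
  rw [zr_iff L le_rfl hop]
  intro x _
  exact tor_of_trivial L le_sup_left hop (comms_trivial L hcc h1) h2 x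

end eng

end Pool.Agent.U152.RK
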